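import Pool.Agent.H677_SC.Basic

set_option autoImplicit false

open Finset

namespace Pool.Agent.Results.MP_7d0087_nt.FalseAtSeven

/-- The generalized binomial coefficient `a (a - 1) ⋯ (a - k + 1) / k!`. -/
def binom (a : ℚ) (k : ℕ) : ℚ := (∏ i ∈ range k, (a - i)) / (k.factorial : ℚ)

/-- `S_p = ∑_{k < p} binom (-1/2) k * binom (-1/3) k / (-4) ^ k`. -/
def S (p : ℕ) : ℚ := ∑ k ∈ range p, binom (-1/2) k * binom (-1/3) k / (-4) ^ k

/-- `u ≡ v` modulo `p ^ m` in the rationals with denominator prime to `p`: the difference is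
`p ^ m` times a rational number whose denominator is not divisible by `p`. -/
def Congr (p m : ℕ) (u v : ℚ) : Prop := ∃ r : ℚ, ¬ p ∣ r.den ∧ u - v = (p : ℚ) ^ m * r

/-- The three statements of Q1 for the prime `p`. -/
def Assertion (p : ℕ) : Prop :=
  (p % 3 = 1 → ∀ A B : ℤ, (p : ℤ) = A ^ 2 + 3 * B ^ 2 → A ≡ 1 [ZMOD 3] → 5 ∣ A * B →
    Congr p 2 (S p) ((jacobiSym p 5 : ℚ) * (2 * A - p / (2 * A)))) ∧
  (p % 3 = 1 → ∀ A B : ℤ, (p : ℤ) = A ^ 2 + 3 * B ^ 2 → A ≡ 1 [ZMOD 3] → ¬ (5 ∣ A * B) →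
    (A ≡ -B [ZMOD 5] ∨ A ≡ -2 * B [ZMOD 5]) →
    Congr p 2 (S p) ((jacobiSym p 5 : ℚ) * (A + 3 * B - p / (A + 3 * B)))) ∧
  (p % 3 = 2 → Congr p 1 (S p) 0)

/-- Q1 as stated is false: its second statement fails for `p = 7 = (-2)² + 3 · 1²`. -/
theorem result : ¬ ∀ p : ℕ, p.Prime → 5 < p → Assertion p := by
  intro h
  have h2 := (h 7 (by norm_num) (by norm_num)).2.1 (by norm_num) (-2) 1 (by norm_num)
    (by decide) (by decide) (Or.inr (by decide))
  obtain ⟨r, hr, he⟩ := h2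
  have hj : jacobiSym ((7 : ℕ) : ℤ) 5 = -1 := by norm_num
  rw [hj] at he
  have key := Pool.Agent.H677_SC.dvd_of_den (p := 7) (m := 2) (by norm_num) hr
    (d := 1146617856) (N := -5775711727) (by
      rw [← he]
      norm_num [S, binom, Finset.sum_range_succ, Finset.prod_range_succ, Nat.factorial])
  revert key
  norm_num

end Pool.Agent.Results.MP_7d0087_nt.FalseAtSeven
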